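import Mathlib
import Pool.Agent.J6H86.OP.Final

set_option autoImplicit false

/-!
# Replacing an oracle by a finite condition: a bounded error does not suffice

`condC D s y` is the plain complexity `C (s | y)` for an optimal conditional decompressor `D`, and
`oracleC V s` the plain complexity `C^X (s)` for an optimal decompressor `V` with oracle `X`
(`Pool.Agent.Helper760.OracleSim4`). The first two clauses of the theorem say that the optimal
decompressors quantified over exist.
-/

namespace Pool.Agent.Results.MP_f7c71a_lc.NoBoundedError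

open Pool.Agent.Helper760.OracleC Filter

/-- For some oracle `X` every constant `c` is exceeded: for all large `n` there is a set of at most
`2 n + 1` strings of length at most `n` on which no finite condition `x₀` acts like `X` up to an
error `c`. -/
theorem result :
    (∃ D : List Bool → List Bool →. List Bool, OptimalCond D) ∧
    (∀ X : ℕ → Bool, ∃ V : List Bool →. List Bool, OptimalIn X V) ∧
    ∃ X : ℕ → Bool, ∀ D : List Bool → List Bool →. List Bool, OptimalCond D →
      ∀ V : List Bool →. List Bool, OptimalIn X V → ∀ c : ℕ, ∀ᶠ n : ℕ in atTop,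
      ∃ S : Finset (List Bool), (∀ s ∈ S, s.length ≤ n) ∧ S.card ≤ 2 * n + 1 ∧
        ∀ x₀ : List Bool, ∃ s ∈ S, (c : ℤ) < |(condC D s x₀ : ℤ) - (oracleC V s : ℤ)| := by
  refine ⟨exists_optimalCond, exists_optimalIn, ?_⟩
  obtain ⟨X, hX⟩ := Pool.Agent.J6H86.OP.no_bounded_error
  refine ⟨X, fun D hD V hV c => ?_⟩
  filter_upwards [hX D hD V hV c] with n hn
  obtain ⟨S, h1, h2, h3⟩ := hn
  refine ⟨S, h1, h2, fun x => ?_⟩
  obtain ⟨s, hs, h4⟩ := h3 x
  refine ⟨s, hs, ?_⟩
  rcases h4 with h4 | h4
  · rw [lt_abs]; right; omega
  · rw [lt_abs]; left; omega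

end Pool.Agent.Results.MP_f7c71a_lc.NoBoundedError
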