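import Mathlib
import Pool.Agent.J6H86.OP.Log

set_option autoImplicit false

/-!
# Replacing an oracle by a finite condition: any slowly growing error suffices

`condC D s y` is the plain complexity `C (s | y)` for an optimal conditional decompressor `D`, and
`oracleC V s` the plain complexity `C^X (s)` for an optimal decompressor `V` with oracle `X`
(`Pool.Agent.Helper760.OracleSim4`). The first two clauses of the theorem say that the optimal
decompressors quantified over exist.
-/

namespace Pool.Agent.Results.MP_f7c71a_lc.SlowError

open Pool.Agent.Helper760.OracleC Filter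

/-- Third clause: on all strings of length at most `n` simultaneously, every oracle `X` acts like
some finite condition `x₀`, up to an error `c + g n` in one direction and `c` in the other, where
`g` is an arbitrary computable nondecreasing unbounded function.
Fourth clause: in particular (`g` the number of binary digits) Q1, every oracle `X` acts on every
set of at most `n ^ k` strings of length at most `n` like some finite condition `x₀`, up to an
error `c log n`. -/
theorem result :
    (∃ D : List Bool → List Bool →. List Bool, OptimalCond D) ∧
    (∀ X : ℕ → Bool, ∃ V : List Bool →. List Bool, OptimalIn X V) ∧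
    (∀ (X : ℕ → Bool) (D : List Bool → List Bool →. List Bool), OptimalCond D →
      ∀ V : List Bool →. List Bool, OptimalIn X V →
      ∀ g : ℕ → ℕ, Computable g → Monotone g → Tendsto g atTop atTop →
      ∃ c : ℕ, ∀ n : ℕ, ∃ x₀ : List Bool, ∀ s : List Bool, s.length ≤ n →
        condC D s x₀ ≤ oracleC V s + c ∧ oracleC V s ≤ condC D s x₀ + g n + c) ∧
    ∀ (X : ℕ → Bool) (D : List Bool → List Bool →. List Bool), OptimalCond D →
      ∀ V : List Bool →. List Bool, OptimalIn X V → ∀ k : ℕ,
      ∃ c : ℝ, ∀ n : ℕ, 2 ≤ n → ∀ S : Finset (List Bool), (∀ s ∈ S, s.length ≤ n) →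
        S.card ≤ n ^ k → ∃ x₀ : List Bool, ∀ s ∈ S,
          |(condC D s x₀ : ℝ) - (oracleC V s : ℝ)| ≤ c * Real.log n :=
  ⟨exists_optimalCond, exists_optimalIn, Pool.Agent.J6H86.OP.simulate_slow,
    Pool.Agent.J6H86.OP.log_error⟩

end Pool.Agent.Results.MP_f7c71a_lc.SlowError
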